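import Pool.Agent.Helper49_Pauli.Interface4

/-!
# FOCKREP: the Fock representation on polynomials
-/

open Complex MvPolynomial

namespace Pool.Agent.Helper49_Pauli

namespace FockRep

variable {M : Type} [Fintype M] [DecidableEq M]

/-- `n! = prod n_i!`. -/
def fct (n : M →₀ ℕ) : ℂ := ((∏ i, (n i).factorial : ℕ) : ℂ)

lemma fct_pos (n : M →₀ ℕ) : (0 : ℝ) < ((∏ i, (n i).factorial : ℕ) : ℝ) := by
  have : 0 < ∏ i, (n i).factorial := Finset.prod_pos fun i _ => Nat.factorial_pos _
  exact_mod_cast this

lemma fct_ne (n : M →₀ ℕ) : fct n ≠ 0 := by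
  have := fct_pos n
  unfold fct
  intro h
  have h2 : ((∏ i, (n i).factorial : ℕ) : ℝ) = 0 := by exact_mod_cast h
  linarith

lemma fct_add_single (n : M →₀ ℕ) (i : M) :
    fct (n + Finsupp.single i 1) = ((n i : ℂ) + 1) * fct n := by
  have : (∏ j, ((n + Finsupp.single i 1 : M →₀ ℕ) j).factorial) =
      (n i + 1) * ∏ j, (n j).factorial := by
    rw [← Finset.mul_prod_erase Finset.univ _ (Finset.mem_univ i),
      ← Finset.mul_prod_erase Finset.univ (fun j => (n j).factorial) (Finset.mem_univ i)]
    have h1 : ∏ x ∈ Finset.univ.erase i, ((n + Finsupp.single i 1 : M →₀ ℕ) x).factorial =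
        ∏ x ∈ Finset.univ.erase i, (n x).factorial := by
      refine Finset.prod_congr rfl fun x hx => ?_
      have : x ≠ i := Finset.ne_of_mem_erase hx
      simp [Finsupp.single_apply, this.symm]
    rw [h1]
    simp [Nat.factorial_succ, mul_assoc]
  unfold fct
  rw [this]
  push_cast
  ring

/-- The inner product `sum over n of n! conj(P_n) Q_n`. -/
noncomputable def ip (P Q : MvPolynomial M ℂ) : ℂ :=
  ∑ n ∈ P.support, (starRingEnd ℂ) (coeff n P) * coeff n Q * fct n

lemma ip_eq (P Q : MvPolynomial M ℂ) (s : Finset (M →₀ ℕ)) (hs : P.support ⊆ s) :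
    ip P Q = ∑ n ∈ s, (starRingEnd ℂ) (coeff n P) * coeff n Q * fct n := by
  unfold ip
  refine Finset.sum_subset hs fun n _ hn => ?_
  rw [MvPolynomial.notMem_support_iff.1 hn]
  simp

lemma ip_eq' (P Q : MvPolynomial M ℂ) (s : Finset (M →₀ ℕ)) (hs : Q.support ⊆ s) :
    ip P Q = ∑ n ∈ s, (starRingEnd ℂ) (coeff n P) * coeff n Q * fct n := by
  rw [ip_eq P Q (P.support ∪ s) Finset.subset_union_left]
  symm
  refine Finset.sum_subset Finset.subset_union_right fun n _ hn => ?_
  rw [MvPolynomial.notMem_support_iff.1 (fun h => hn (hs h))]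
  simp

lemma ip_symm (P Q : MvPolynomial M ℂ) : (starRingEnd ℂ) (ip Q P) = ip P Q := by
  rw [ip_eq P Q (P.support ∪ Q.support) Finset.subset_union_left,
    ip_eq Q P (P.support ∪ Q.support) Finset.subset_union_right, map_sum]
  refine Finset.sum_congr rfl fun n _ => ?_
  simp only [map_mul, Complex.conj_conj]
  have : (starRingEnd ℂ) (fct n) = fct n := by
    unfold fct
    exact Complex.conj_natCast _
  rw [this]
  ring

lemma ip_add_left (P Q R : MvPolynomial M ℂ) : ip (P + Q) R = ip P R + ip Q R := by
  rw [ip_eq' (P + Q) R R.support subset_rfl, ip_eq' P R R.support subset_rfl,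
    ip_eq' Q R R.support subset_rfl, ← Finset.sum_add_distrib]
  refine Finset.sum_congr rfl fun n _ => ?_
  rw [coeff_add, map_add]
  ring

lemma ip_smul_left (P Q : MvPolynomial M ℂ) (r : ℂ) :
    ip (r • P) Q = (starRingEnd ℂ) r * ip P Q := by
  rw [ip_eq' (r • P) Q Q.support subset_rfl, ip_eq' P Q Q.support subset_rfl, Finset.mul_sum]
  refine Finset.sum_congr rfl fun n _ => ?_
  rw [coeff_smul, smul_eq_mul, map_mul]
  ring

lemma ip_self (P : MvPolynomial M ℂ) :
    ip P P = ((∑ n ∈ P.support, ‖coeff n P‖ ^ 2 * ((∏ i, (n i).factorial : ℕ) : ℝ) : ℝ) : ℂ) := by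
  unfold ip fct
  push_cast
  refine Finset.sum_congr rfl fun n _ => ?_
  rw [mul_comm ((starRingEnd ℂ) _) _, Complex.mul_conj, Complex.normSq_eq_norm_sq]
  push_cast
  rfl

/-- The pre-Hilbert space structure on polynomials. -/
noncomputable def core : InnerProductSpace.Core ℂ (MvPolynomial M ℂ) where
  inner := ip
  conj_inner_symm := fun P Q => ip_symm P Q
  re_inner_nonneg := fun P => by
    rw [ip_self]
    simp only [RCLike.re_to_complex, Complex.ofReal_re]
    exact Finset.sum_nonneg fun n _ => mul_nonneg (sq_nonneg _) (fct_pos n).le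
  add_left := ip_add_left
  smul_left := ip_smul_left
  definite := fun P hP => by
    rw [ip_self] at hP
    have h : (∑ n ∈ P.support, ‖coeff n P‖ ^ 2 * ((∏ i, (n i).factorial : ℕ) : ℝ)) = 0 := by
      exact_mod_cast hP
    rw [Finset.sum_eq_zero_iff_of_nonneg
      (fun n _ => mul_nonneg (sq_nonneg _) (fct_pos n).le)] at h
    ext n
    rw [coeff_zero]
    by_contra hn
    have hm : n ∈ P.support := mem_support_iff.2 hn
    have := h n hm
    have h3 : 0 < ‖coeff n P‖ ^ 2 := by positivity
    have h4 := mul_pos h3 (fct_pos n)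
    linarith

lemma ip_adj (i : M) (P Q : MvPolynomial M ℂ) : ip (X i * P) Q = ip P (pderiv i Q) := by
  induction Q using MvPolynomial.induction_on' with
  | monomial m c =>
    rw [ip_eq' (X i * P) (monomial m c) {m} (by
      exact MvPolynomial.support_monomial_subset)]
    rw [pderiv_monomial, ip_eq' P _ {m - Finsupp.single i 1} MvPolynomial.support_monomial_subset]
    simp only [Finset.sum_singleton, coeff_monomial, if_true]
    by_cases hi : m i = 0
    · have : coeff m (X i * P) = 0 := by
        rw [coeff_X_mul']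
        simp [hi]
      rw [this, hi]
      simp
    · obtain ⟨n, rfl⟩ : ∃ n, m = n + Finsupp.single i 1 :=
        ⟨m - Finsupp.single i 1, by
          ext j
          by_cases hj : i = j
          · subst hj
            simp
            omega
          · simp [Finsupp.single_apply, hj]⟩
      have h1 : n + Finsupp.single i 1 - Finsupp.single i 1 = n := by
        simp
      rw [h1, add_comm n, coeff_X_mul, add_comm _ n, fct_add_single]
      simp
      ring
  | add p q hp hq =>
    have h2 : ∀ A B C : MvPolynomial M ℂ, ip A (B + C) = ip A B + ip A C := by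
      intro A B C
      rw [← ip_symm, ip_add_left, map_add, ip_symm, ip_symm]
    rw [h2, hp, hq, map_add, h2]


lemma pd_ccr (m n : M) (v : MvPolynomial M ℂ) :
    pderiv m (X n * v) - X n * pderiv m v = if m = n then v else 0 := by
  rw [pderiv_mul]
  by_cases h : m = n
  · subst h
    rw [pderiv_X_self, if_pos rfl]
    ring
  · rw [pderiv_X_of_ne (Ne.symm h), if_neg h]
    ring

lemma pd_comm (m n : M) (v : MvPolynomial M ℂ) :
    pderiv m (pderiv n v) = pderiv n (pderiv m v) := by
  have h : ⁅(pderiv m : Derivation ℂ (MvPolynomial M ℂ) (MvPolynomial M ℂ)),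
      (pderiv n : Derivation ℂ (MvPolynomial M ℂ) (MvPolynomial M ℂ))⁆ = 0 := by
    apply MvPolynomial.derivation_ext
    intro i
    rw [Derivation.commutator_apply, pderiv_X, pderiv_X]
    simp [Pi.single_apply, apply_ite]
  have h2 := congrArg (fun d => d v) h
  simpa [Derivation.commutator_apply, sub_eq_zero] using h2

lemma ip_one : ip (1 : MvPolynomial M ℂ) 1 = 1 := by
  have h : (1 : MvPolynomial M ℂ) = monomial 0 1 := rfl
  rw [ip_eq 1 1 {0} (by rw [h]; exact support_monomial_subset)]
  simp [fct]

end FockRep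


open FockRep in
theorem fockRep : FockRepStatement := by
  intro M _ _
  let N : NormedAddCommGroup (MvPolynomial M ℂ) :=
    @InnerProductSpace.Core.toNormedAddCommGroup ℂ (MvPolynomial M ℂ) _ _ _ core
  let Ip : InnerProductSpace ℂ (MvPolynomial M ℂ) := InnerProductSpace.ofCore core.toCore
  refine ⟨MvPolynomial M ℂ, N, Ip,
    { a := fun i => (pderiv i).toLinearMap
      ad := fun i => LinearMap.mulLeft ℂ (X i)
      adj := ip_adj
      ccr := pd_ccr
      ccr' := pd_comm
      vac := 1
      norm_vac := ?_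
      a_vac := fun m => pderiv_one }, ?_⟩
  · have h := @inner_self_eq_norm_sq_to_K ℂ (MvPolynomial M ℂ) _ N.toSeminormedAddCommGroup Ip 1
    have h2 : @inner ℂ (MvPolynomial M ℂ) Ip.toInner 1 1 = 1 := ip_one
    rw [h2] at h
    have h3 : ‖(1 : MvPolynomial M ℂ)‖ ^ 2 = (1 : ℝ) := by
      apply Complex.ofReal_injective
      rw [Complex.ofReal_pow, Complex.ofReal_one]
      exact h.symm
    exact (pow_eq_one_iff_of_nonneg (norm_nonneg _) two_ne_zero).1 h3
  intro W h1 h2
  rw [eq_top_iff]
  intro P _
  induction P using MvPolynomial.induction_on with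
  | C c =>
    have : (C c : MvPolynomial M ℂ) = c • 1 := by
      rw [MvPolynomial.smul_eq_C_mul, mul_one]
    rw [this]
    exact W.smul_mem c h1
  | add p q hp hq => exact W.add_mem (hp trivial) (hq trivial)
  | mul_X p i hp =>
    rw [mul_comm]
    exact h2 i p (hp trivial)

end Pool.Agent.Helper49_Pauli
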