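import Pool.Agent.Helper49_Pauli.Interface4

/-!
# POL: existence of polarization vectors
-/

open Complex

namespace Pool.Agent.Helper49_Pauli

namespace PolAux

lemma exists_pair (k : X3) (hk : k ≠ 0) : ∃ e : Fin 2 → X3,
    (∀ l m, dot (e l) (e m) = if l = m then 1 else 0) ∧ ∀ l, dot k (e l) = 0 := by
  classical
  let K : EuclideanSpace ℝ (Fin 3) := WithLp.toLp 2 k
  have hK : K ≠ 0 := by
    intro h
    apply hk
    have := congrArg (WithLp.ofLp) h
    simpa [K] using this
  have : Fact (Module.finrank ℝ (EuclideanSpace ℝ (Fin 3)) = 2 + 1) := ⟨by simp⟩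
  have hfin : Module.finrank ℝ (ℝ ∙ K)ᗮ = 2 := Submodule.finrank_orthogonal_span_singleton hK
  let b : OrthonormalBasis (Fin 2) ℝ (ℝ ∙ K)ᗮ := (stdOrthonormalBasis ℝ (ℝ ∙ K)ᗮ).reindex
    (finCongr hfin)
  refine ⟨fun l => WithLp.ofLp ((b l : (ℝ ∙ K)ᗮ) : EuclideanSpace ℝ (Fin 3)), ?_, ?_⟩
  · intro l m
    have h := orthonormal_iff_ite.1 b.orthonormal l m
    rw [Submodule.coe_inner, PiLp.inner_apply] at h
    rw [← h, dot]
    refine Finset.sum_congr rfl fun j _ => ?_
    simp [mul_comm]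
  · intro l
    have h := (Submodule.mem_orthogonal_singleton_iff_inner_right.1 (b l).2)
    rw [PiLp.inner_apply] at h
    rw [← h, dot]
    refine Finset.sum_congr rfl fun j _ => ?_
    rw [RCLike.inner_apply, conj_trivial]
    exact mul_comm _ _

end PolAux

theorem pol : PolStatement := by
  intro L hL
  classical
  have hw : ∀ n : Fin 3 → ℤ, n ≠ 0 → wave L n ≠ 0 := by
    intro n hn h
    apply hn
    funext j
    have := congrFun h j
    have h2 : 2 * Real.pi / L ≠ 0 := by positivity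
    simpa [wave, hL.ne', Real.pi_ne_zero] using this
  choose e he1 he2 using fun n : {n : Fin 3 → ℤ // n ≠ 0} => PolAux.exists_pair _ (hw n.1 n.2)
  refine ⟨⟨fun n => if h : n ≠ 0 then e ⟨n, h⟩ else fun _ => 0, ?_, ?_⟩⟩
  · intro n hn l m
    simpa [hn] using he1 ⟨n, hn⟩ l m
  · intro n hn l
    simpa [hn] using he2 ⟨n, hn⟩ l

end Pool.Agent.Helper49_Pauli
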