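import Pool.Agent.Helper68_Pauli.Cont
import Pool.Agent.Helper49_Pauli.Trial

/-!
# H3: the norm of the trial state
-/

open MeasureTheory Complex ProbabilityTheory

namespace Pool.Agent.Helper49_Pauli

namespace H3Aux

lemma ofReal_integral_le {α : Type*} [MeasurableSpace α] {μ : Measure α} {f : α → ℝ}
    (hf : Integrable f μ) :
    ENNReal.ofReal (∫ a, f a ∂μ) ≤ ∫⁻ a, ENNReal.ofReal (f a) ∂μ := by
  rw [integral_eq_lintegral_pos_part_sub_lintegral_neg_part hf]
  exact (ENNReal.ofReal_le_ofReal (sub_le_self _ ENNReal.toReal_nonneg)).trans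
    ENNReal.ofReal_toReal_le

/-- `2 Re ⟨u, v⟩`. -/
noncomputable def re2 (u v : S2) : ℝ := ∑ s, 2 * inner ℝ (u s) (v s)

lemma nsq_add_ge (u v : S2) : nsq u + re2 u v ≤ nsq (u + v) := by
  unfold nsq re2
  rw [← Finset.sum_add_distrib]
  refine Finset.sum_le_sum fun s _ => ?_
  rw [Pi.add_apply, norm_add_sq_real]
  have := sq_nonneg ‖v s‖
  linarith

variable {ι : Type} [Fintype ι] (p : Par ι)

/-- the linear functional `2 Re ⟨phi, dl (T z)⟩` -/
noncomputable def lin (T : EuclideanSpace ℝ ι →ₗ[ℝ] EuclideanSpace ℝ ι) (x : X3) :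
    EuclideanSpace ℝ ι →ₗ[ℝ] ℝ where
  toFun z := re2 (p.phi x) (p.dl (fun i => T z i) x)
  map_add' z z' := by
    have h : (fun i => T (z + z') i) = (fun i => T z i) + fun i => T z' i := by
      ext i
      simp
    rw [h, p.dl_add]
    simp only [re2, Pi.add_apply, inner_add_right, mul_add, Finset.sum_add_distrib]
  map_smul' r z := by
    have h : (fun i => T (r • z) i) = r • fun i => T z i := by
      ext i
      simp
    rw [h, p.dl_smul]
    simp only [re2, Pi.smul_apply, RingHom.id_apply, smul_eq_mul, Finset.mul_sum]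
    refine Finset.sum_congr rfl fun s _ => ?_
    rw [← Complex.real_smul, inner_smul_right]
    ring

lemma fixed (T : EuclideanSpace ℝ ι →ₗ[ℝ] EuclideanSpace ℝ ι) (x : X3) :
    ENNReal.ofReal (p.p0 x) ≤
      ∫⁻ z, ENNReal.ofReal (nsq (p.phi x + p.dl (fun i => T z i) x))
        ∂stdGaussian (EuclideanSpace ℝ ι) := by
  set L : StrongDual ℝ (EuclideanSpace ℝ ι) := LinearMap.toContinuousLinearMap (lin p T x)
  have hL : ∀ z, L z = re2 (p.phi x) (p.dl (fun i => T z i) x) := fun z => rfl
  have h0 : ∫ z, L z ∂stdGaussian (EuclideanSpace ℝ ι) = 0 := integral_strongDual_stdGaussian L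
  have hi : Integrable (fun z => L z) (stdGaussian (EuclideanSpace ℝ ι)) :=
    IsGaussian.integrable_dual _ L
  have h1 : ∫ z, (p.p0 x + L z) ∂stdGaussian (EuclideanSpace ℝ ι) = p.p0 x := by
    rw [integral_add (integrable_const _) hi, h0]
    simp
  calc ENNReal.ofReal (p.p0 x)
      = ENNReal.ofReal (∫ z, (p.p0 x + L z) ∂stdGaussian (EuclideanSpace ℝ ι)) := by rw [h1]
    _ ≤ ∫⁻ z, ENNReal.ofReal (p.p0 x + L z) ∂stdGaussian (EuclideanSpace ℝ ι) :=
        ofReal_integral_le ((integrable_const _).add hi)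
    _ ≤ _ := by
        refine lintegral_mono fun z => ENNReal.ofReal_le_ofReal ?_
        rw [hL]
        exact nsq_add_ge _ _

lemma nsq_wf [DecidableEq ι] (y : ι → ℝ) (x : X3) :
    nsq (wf p.u0 p.u y x) = nsq (p.phi x + p.dl (fun i => y i - p.η i) x) := by
  rw [p.wf_eq, nsq_smul', p.norm_ex]
  simp

lemma cont_fun : Continuous fun z : (ι → ℝ) × X3 => nsq (p.phi z.2 + p.dl z.1 z.2) :=
  continuous_nsq.comp ((p.hphi.continuous.comp continuous_snd).add p.continuous_dl)

end H3Aux

open H3Aux in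
theorem h3 : H3Statement := by
  intro ι _ _ p T Z hChg hphi
  obtain ⟨hZ, hT, hG⟩ := hChg
  have hcs : Continuous fun z : (ι → ℝ) × X3 =>
      nsq (p.phi z.2 + p.dl (fun i => z.1 i - p.η i) z.2) := by
    have h1 : Continuous fun z : (ι → ℝ) × X3 => (((fun i => z.1 i - p.η i) : ι → ℝ), z.2) := by
      fun_prop
    have h2 := (cont_fun p).comp h1
    simpa only [Function.comp_def] using h2
  have hmeas : Measurable fun y : ι → ℝ => ∫⁻ x,
      ENNReal.ofReal (nsq (p.phi x + p.dl (fun i => y i - p.η i) x)) :=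
    Measurable.lintegral_prod_right'
      (f := fun z : (ι → ℝ) × X3 => ENNReal.ofReal
        (nsq (p.phi z.2 + p.dl (fun i => z.1 i - p.η i) z.2)))
      (hcs.measurable.ennreal_ofReal)
  have h1 : ∀ y : EuclideanSpace ℝ ι,
      ∫⁻ x, ENNReal.ofReal (squeezed p.K p.η (fun i => y i) ^ 2 *
        nsq (wf p.u0 p.u (fun i => y i) x)) =
      ENNReal.ofReal (squeezed p.K p.η (fun i => y i) ^ 2) *
        ∫⁻ x, ENNReal.ofReal (nsq (p.phi x + p.dl (fun i => y i - p.η i) x)) := by
    intro y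
    rw [← lintegral_const_mul']
    · refine lintegral_congr fun x => ?_
      rw [ENNReal.ofReal_mul (sq_nonneg _), nsq_wf]
    · exact ENNReal.ofReal_ne_top
  simp only [h1]
  rw [hG (fun y => ∫⁻ x, ENNReal.ofReal (nsq (p.phi x + p.dl (fun i => y i - p.η i) x))) hmeas]
  have h2 : 1 ≤ ∫⁻ z, ∫⁻ x, ENNReal.ofReal (nsq (p.phi x +
      p.dl (fun i => (p.η i + T z i) - p.η i) x)) ∂volume ∂stdGaussian (EuclideanSpace ℝ ι) := by
    simp only [add_sub_cancel_left]
    have hc : Continuous fun z : (EuclideanSpace ℝ ι) × X3 =>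
        nsq (p.phi z.2 + p.dl (fun i => T z.1 i) z.2) := by
      have hT' : Continuous T := T.continuous_of_finiteDimensional
      have h1 : Continuous fun z : (EuclideanSpace ℝ ι) × X3 =>
          (((fun i => T z.1 i) : ι → ℝ), z.2) := by
        fun_prop
      have h2 := (cont_fun p).comp h1
      simpa only [Function.comp_def] using h2
    rw [lintegral_lintegral_swap hc.measurable.ennreal_ofReal.aemeasurable]
    calc (1 : ENNReal) ≤ ENNReal.ofReal (∫ x, p.p0 x) := by
          rw [← ENNReal.ofReal_one]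
          exact ENNReal.ofReal_le_ofReal hphi
      _ ≤ ∫⁻ x, ENNReal.ofReal (p.p0 x) :=
          ofReal_integral_le (p.continuous_p0.integrable_of_hasCompactSupport p.compact_p0)
      _ ≤ _ := lintegral_mono fun x => fixed p T x
  calc ENNReal.ofReal Z = ENNReal.ofReal Z * 1 := (mul_one _).symm
    _ ≤ _ := by gcongr

end Pool.Agent.Helper49_Pauli
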