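import Pool.Agent.Helper49_Pauli.Trial

/-!
# CONT: joint continuity
-/

open MeasureTheory Complex

namespace Pool.Agent.Helper49_Pauli

lemma continuous_nsq : Continuous nsq := by
  unfold nsq
  fun_prop

lemma continuous_sg (j : Fin 3) : Continuous (sg j) := (toR (sg j)).continuous

namespace Par

variable {ι : Type} [Fintype ι] (p : Par ι)

lemma continuous_fsB : Continuous fun z : (ι → ℝ) × X3 => p.fsB z.1 z.2 := by
  simp only [fsB, sB, fB, qof, ph, dot]
  fun_prop

lemma continuous_fsD : Continuous fun z : (ι → ℝ) × X3 => p.fsD z.1 z.2 := by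
  simp only [fsD, sD, fD, qof, ph, dot]
  fun_prop

lemma continuous_fsBl : Continuous fun z : (ι → ℝ) × X3 => p.fsBl z.1 z.2 := by
  simp only [fsBl, sBl, fBl, qof, ph, dot]
  fun_prop

lemma continuous_fsAl : Continuous fun z : (ι → ℝ) × X3 => p.fsAl z.1 z.2 := by
  simp only [fsAl, sAl, fAl, qof, ph, dot]
  fun_prop

lemma continuous_fsA : Continuous fun z : (ι → ℝ) × X3 => p.fsA z.1 z.2 := by
  simp only [fsA, sA, fA, qof, ph, dot]
  fun_prop

lemma continuous_w : Continuous p.w := by
  unfold w sq
  fun_prop

lemma continuous_p0 : Continuous p.p0 := continuous_nsq.comp p.hphi.continuous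

lemma continuous_p1 : Continuous p.p1 := by
  unfold p1
  exact continuous_finset_sum _ fun l _ => continuous_nsq.comp (p.covphi_contDiff l).continuous

lemma continuous_p2 : Continuous p.p2 := by
  unfold p2
  exact continuous_finset_sum _ fun l _ => continuous_finset_sum _ fun j _ =>
    continuous_nsq.comp (cov_differentiable p.A_contDiff (p.covphi_contDiff l) j).continuous

lemma continuous_pd : Continuous p.pd := by
  unfold pd
  exact continuous_nsq.comp (continuous_finset_sum _ fun j _ =>
    (continuous_sg j).comp (p.covphi_contDiff j).continuous)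

lemma continuous_sqE : Continuous fun x => sq (p.E x) := by
  unfold sq
  refine continuous_finset_sum _ fun j _ => Continuous.pow ?_ 2
  have h1 : Continuous fun x => fderiv ℝ p.g x (Pi.single j 1) :=
    ((p.hg.fderiv_right (m := (⊤ : ℕ∞)) (by simp)).clm_apply contDiff_const).continuous
  have h2 : Continuous fun x => p.A x j := (continuous_apply j).comp p.A_contDiff.continuous
  have h3 : Continuous fun x => fA p.k p.c p.θ (qof p.k p.η) x j := by
    simp only [fA, ph, dot]
    fun_prop
  unfold E
  exact ((continuous_const.mul h3).sub h1).sub h2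

lemma cov_zero' {x : X3} (h : x ∉ tsupport p.phi) (l : Fin 3) : cov p.A l p.phi x = 0 :=
  cov_zero_of_notMem h p.hphi

lemma compact_p0 : HasCompactSupport p.p0 :=
  HasCompactSupport.intro p.hphic fun x hx => by
    rw [p0, image_eq_zero_of_notMem_tsupport hx]
    simp [nsq]

lemma compact_p1 : HasCompactSupport p.p1 :=
  HasCompactSupport.intro p.hphic fun x hx => by
    simp only [p1, p.cov_zero' hx]
    simp [nsq]

lemma compact_pd : HasCompactSupport p.pd :=
  HasCompactSupport.intro p.hphic fun x hx => by
    simp only [pd, p.cov_zero' hx]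
    simp [nsq]

lemma compact_p2 : HasCompactSupport p.p2 :=
  HasCompactSupport.intro p.hphic fun x hx => by
    have h : ∀ l, x ∉ tsupport (cov p.A l p.phi) := by
      intro l hx2
      apply hx
      have h3 : Function.support (cov p.A l p.phi) ⊆ tsupport p.phi := by
        intro y hy
        by_contra hne
        exact hy (p.cov_zero' hne l)
      exact closure_minimal h3 (isClosed_tsupport _) hx2
    have h2 : ∀ l j, cov p.A j (cov p.A l p.phi) x = 0 := fun l j =>
      cov_zero_of_notMem (h l) (p.covphi_contDiff l)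
    simp only [p2, h2]
    simp [nsq]

lemma continuous_dl : Continuous fun z : (ι → ℝ) × X3 => p.dl z.1 z.2 := by
  classical
  have h0 : (fun z : (ι → ℝ) × X3 => p.dl z.1 z.2) =
      fun z => ∑ i, (z.1 i : ℂ) • p.dl (Pi.single i 1) z.2 := funext fun z => p.dl_eq_sum _ _
  rw [h0]
  refine continuous_finset_sum _ fun i _ => ?_
  have h1 : Continuous fun z : (ι → ℝ) × X3 => ((z.1 i : ℝ) : ℂ) := by fun_prop
  exact h1.smul ((p.dl_contDiff _).continuous.comp continuous_snd)

lemma dl_add (y z : ι → ℝ) (x : X3) : p.dl (y + z) x = p.dl y x + p.dl z x := by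
  classical
  rw [p.dl_eq_sum (y + z), p.dl_eq_sum y, p.dl_eq_sum z, ← Finset.sum_add_distrib]
  refine Finset.sum_congr rfl fun i _ => ?_
  rw [Pi.add_apply, Complex.ofReal_add, add_smul]

lemma dl_smul (r : ℝ) (y : ι → ℝ) (x : X3) : p.dl (r • y) x = (r : ℂ) • p.dl y x := by
  classical
  rw [p.dl_eq_sum (r • y), p.dl_eq_sum y, Finset.smul_sum]
  refine Finset.sum_congr rfl fun i _ => ?_
  rw [Pi.smul_apply, smul_eq_mul, Complex.ofReal_mul, mul_smul]

lemma dl_zero (x : X3) : p.dl (0 : ι → ℝ) x = 0 := by
  have := p.dl_smul 0 0 x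
  simpa using this

lemma continuous_bd : Continuous fun z : (ι → ℝ) × X3 => p.bd z.1 z.2 := by
  have h1 := p.continuous_fsA
  have h2 := p.continuous_fsAl
  have h3 := p.continuous_fsB
  have h4 := p.continuous_fsBl
  have h5 := p.continuous_fsD
  have h6 : Continuous fun z : (ι → ℝ) × X3 => p.p0 z.2 := p.continuous_p0.comp continuous_snd
  have h7 : Continuous fun z : (ι → ℝ) × X3 => p.p1 z.2 := p.continuous_p1.comp continuous_snd
  have h8 : Continuous fun z : (ι → ℝ) × X3 => p.p2 z.2 := p.continuous_p2.comp continuous_snd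
  have h9 : Continuous fun z : (ι → ℝ) × X3 => p.pd z.2 := p.continuous_pd.comp continuous_snd
  have h10 : Continuous fun z : (ι → ℝ) × X3 => sq (p.E z.2) :=
    p.continuous_sqE.comp continuous_snd
  unfold bd
  fun_prop

end Par

theorem cont : ContStatement := by
  intro ι _ p
  exact ⟨p.continuous_bd, p.continuous_dl, p.continuous_fsB, p.continuous_fsD, p.continuous_fsBl,
    p.continuous_fsAl, p.continuous_fsA, p.continuous_w, p.continuous_p0, p.continuous_p1,
    p.continuous_p2, p.continuous_pd, p.continuous_sqE, p.compact_p0, p.compact_p1, p.compact_p2,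
    p.compact_pd, p.dl_zero, p.dl_add, p.dl_smul⟩

end Pool.Agent.Helper49_Pauli
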